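import Mathlib
import Pool.Agent.H40R2.Surj.Retract

set_option autoImplicit false
set_option linter.style.haveILetI false

/-!
Finitary perturbations of actions of surjunctive groups.
-/

namespace Pool.Agent.H40R2.Surj

open Nb3f906a2

variable {Γ G Ω : Type} [Group Γ] [Group G]

/-- tokens indexed by `ι`: the tokens in `U` move by `α`, the other ones by `β ∘ π` -/
def tok (π : Γ →* G) (α : Γ →* Equiv.Perm Ω) (β : G →* Equiv.Perm Ω) (ι : Type)
    [DecidableEq ι] (U : Finset ι) : RAct Γ ((ι → Ω) × G) where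
  r := fun p γ => (fun i => if i ∈ U then (α γ)⁻¹ (p.1 i) else (β (π γ))⁻¹ (p.1 i), p.2 * π γ)
  one := by
    intro p
    simp
  mul := by
    intro p a b
    apply Prod.ext
    · funext i
      by_cases hi : i ∈ U
      · simp [hi]
      · simp [hi]
    · simp [mul_assoc]

instance instTok (ι : Type) : MulAction G ((ι → Ω) × G) where
  smul := fun g p => (p.1, g * p.2)
  one_smul := by
    intro p
    show (p.1, 1 * p.2) = p
    rw [one_mul]
  mul_smul := by
    intro a b p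
    show (p.1, a * b * p.2) = (p.1, a * (b * p.2))
    rw [mul_assoc]

theorem setupTok (π : Γ →* G) (α : Γ →* Equiv.Perm Ω) (β : G →* Equiv.Perm Ω)
    (hfin : ∀ γ, {ω | α γ ω ≠ β (π γ) ω}.Finite) (ι : Type) [DecidableEq ι] [Fintype ι] :
    Setup G (tok π α β ι) Finset.univ (fun (i : ι) (p : (ι → Ω) × G) => p.1 i) := by
  refine ⟨?_, ?_, ?_, ?_, ?_, ?_⟩
  · intro h p hp
    have h1 : h * p.2 = p.2 := congrArg Prod.snd hp
    simpa using h1
  · intro U _ h p γ
    apply Prod.ext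
    · rfl
    · show (h * p.2) * π γ = h * (p.2 * π γ)
      rw [mul_assoc]
  · intro i _ γ
    refine ⟨_, hfin γ⁻¹, ?_⟩
    intro U _ p hp
    have hp' : (α γ)⁻¹ (p.1 i) = (β (π γ))⁻¹ (p.1 i) := by
      have h1 : ¬ (α γ⁻¹ (p.1 i) ≠ β (π γ⁻¹) (p.1 i)) := hp
      push Not at h1
      simpa using h1
    apply Prod.ext
    · funext j
      by_cases hj : j = i
      · subst hj
        by_cases hU : j ∈ U
        · show (if j ∈ U then (α γ)⁻¹ (p.1 j) else (β (π γ))⁻¹ (p.1 j)) =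
            (if j ∈ U.erase j then (α γ)⁻¹ (p.1 j) else (β (π γ))⁻¹ (p.1 j))
          rw [if_pos hU, if_neg (by simp), hp']
        · simp [tok, hU]
      · simp [tok, hj]
    · rfl
  · intro i _ γ E hE
    refine ⟨(fun w => (α γ)⁻¹ w) '' E ∪ (fun w => (β (π γ))⁻¹ w) '' E,
      (hE.image _).union (hE.image _), ?_⟩
    intro U _ p hp
    show (if i ∈ U then (α γ)⁻¹ (p.1 i) else (β (π γ))⁻¹ (p.1 i)) ∈ _
    by_cases hU : i ∈ U
    · rw [if_pos hU]
      exact Or.inl ⟨_, hp, rfl⟩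
    · rw [if_neg hU]
      exact Or.inr ⟨_, hp, rfl⟩
  · intro i _ h p
    rfl
  · intro E hE
    refine ⟨(fun κ : ι → Ω => (κ, (1 : G))) '' (Set.univ.pi (fun _ => E)),
      (Set.Finite.pi (fun _ => hE)).image _, ?_⟩
    intro p hp
    refine ⟨p.2, _, ⟨p.1, fun i _ => hp i (Finset.mem_univ i), rfl⟩, ?_⟩
    show p = (p.1, p.2 * 1)
    rw [mul_one]

theorem goodTok (π : Γ →* G) (α : Γ →* Equiv.Perm Ω) (β : G →* Equiv.Perm Ω)
    (hfin : ∀ γ, {ω | α γ ω ≠ β (π γ) ω}.Finite) (hG : IsSurjunctive G) (n : ℕ) :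
    ∀ (ι : Type) [DecidableEq ι] [Fintype ι], Fintype.card ι = n →
      Good (tok π α β ι Finset.univ) := by
  induction n using Nat.strong_induction_on with
  | _ n ih =>
    intro ι _ _ hn
    apply ind (setupTok π α β hfin ι) hG
    intro U hU p
    have hcard : Fintype.card U < n := by
      rw [← hn, Fintype.card_coe, ← Finset.card_univ]
      exact Finset.card_lt_card hU
    let j : ((U → Ω) × G) → ((ι → Ω) × G) := fun q =>
      (fun i => if h : i ∈ U then q.1 ⟨i, h⟩ else (β q.2)⁻¹ (β p.2 (p.1 i)), q.2)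
    have h1 := goodAt_map (a := tok π α β U Finset.univ) (a' := tok π α β ι U) j (by
      intro q γ
      apply Prod.ext
      · funext i
        by_cases hi : i ∈ U
        · simp [j, tok, hi]
        · simp [j, tok, hi]
      · rfl) (ih _ hcard U rfl (fun i : U => p.1 i.1, p.2))
    have h2 : j (fun i : U => p.1 i.1, p.2) = p := by
      apply Prod.ext
      · funext i
        by_cases hi : i ∈ U
        · simp [j, hi]
        · simp [j, hi]
      · rfl
    rwa [h2] at h1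

theorem surj_perturb (hG : IsSurjunctive G) (π : Γ →* G)
    (h : ∀ γ : Γ, γ ≠ 1 → π γ = 1 → ∃ (Ω : Type) (α : Γ →* Equiv.Perm Ω)
      (β : G →* Equiv.Perm Ω), α γ ≠ 1 ∧ ∀ δ, {ω | α δ ω ≠ β (π δ) ω}.Finite) :
    IsSurjunctive Γ := by
  classical
  apply surj_of_good
  intro F
  let F' : Finset Γ := (Finset.image₂ (fun x y : Γ => x⁻¹ * y) F F).filter
    (fun γ => γ ≠ 1 ∧ π γ = 1)
  have hF' : ∀ γ ∈ F', γ ≠ 1 ∧ π γ = 1 := fun γ hγ => (Finset.mem_filter.1 hγ).2
  have h' : ∀ γ : F', ∃ (Ω : Type) (α : Γ →* Equiv.Perm Ω)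
      (β : G →* Equiv.Perm Ω), α γ.1 ≠ 1 ∧ ∀ δ, {ω | α δ ω ≠ β (π δ) ω}.Finite :=
    fun γ => h γ.1 (hF' γ.1 γ.2).1 (hF' γ.1 γ.2).2
  choose Ω α β hα hfin using h'
  -- the disjoint union of the sets `Ω γ`
  let Ω' : Type := Σ γ : F', Ω γ
  let α' : Γ →* Equiv.Perm Ω' :=
    { toFun := fun δ => Equiv.sigmaCongrRight (fun γ => α γ δ)
      map_one' := by
        apply Equiv.ext
        rintro ⟨γ, w⟩
        show (⟨γ, α γ 1 w⟩ : Ω') = ⟨γ, w⟩
        rw [map_one]
        rfl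
      map_mul' := by
        intro a b
        apply Equiv.ext
        rintro ⟨γ, w⟩
        show (⟨γ, α γ (a * b) w⟩ : Ω') = ⟨γ, α γ a (α γ b w)⟩
        rw [map_mul]
        rfl }
  let β' : G →* Equiv.Perm Ω' :=
    { toFun := fun δ => Equiv.sigmaCongrRight (fun γ => β γ δ)
      map_one' := by
        apply Equiv.ext
        rintro ⟨γ, w⟩
        show (⟨γ, β γ 1 w⟩ : Ω') = ⟨γ, w⟩
        rw [map_one]
        rfl
      map_mul' := by
        intro a b
        apply Equiv.ext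
        rintro ⟨γ, w⟩
        show (⟨γ, β γ (a * b) w⟩ : Ω') = ⟨γ, β γ a (β γ b w)⟩
        rw [map_mul]
        rfl }
  have hfin' : ∀ δ, {ω | α' δ ω ≠ β' (π δ) ω}.Finite := by
    intro δ
    have h1 : {ω | α' δ ω ≠ β' (π δ) ω} ⊆
        ⋃ γ : F', (fun w : Ω γ => (⟨γ, w⟩ : Ω')) '' {w | α γ δ w ≠ β γ (π δ) w} := by
      rintro ⟨γ, w⟩ hw
      refine Set.mem_iUnion.2 ⟨γ, w, ?_, rfl⟩
      intro hc
      apply hw
      show (⟨γ, α γ δ w⟩ : Ω') = ⟨γ, β γ (π δ) w⟩
      rw [hc]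
    exact (Set.finite_iUnion (fun γ => (hfin γ δ).image _)).subset h1
  have hw : ∀ γ : F', ∃ w : Ω γ, α γ γ.1 w ≠ w := by
    intro γ
    by_contra hcon
    push Not at hcon
    exact hα γ (Equiv.ext hcon)
  choose w hw using hw
  refine ⟨(F' × F → Ω') × G, tok π α' β' (F' × F) Finset.univ,
    (fun q => ⟨q.1, α q.1 q.2.1 (w q.1)⟩, 1), goodTok π α' β' hfin' hG _ (F' × F) rfl _, ?_⟩
  intro x hx y hy hxy
  by_contra hne
  have h1 : π x = π y := by
    have := congrArg Prod.snd hxy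
    simpa [tok] using this
  have hmem : x⁻¹ * y ∈ F' := by
    refine Finset.mem_filter.2 ⟨Finset.mem_image₂_of_mem hx hy, ?_, ?_⟩
    · intro hc
      rw [inv_mul_eq_one] at hc
      exact hne hc
    · rw [map_mul, map_inv, h1, inv_mul_cancel]
  have h4 : ∀ (γ : F') (δ : Γ) (v : Ω γ), (α' δ)⁻¹ (⟨γ, v⟩ : Ω') = ⟨γ, (α γ δ)⁻¹ v⟩ := by
    intro γ δ v
    rw [← map_inv, ← map_inv]
    rfl
  have h2 := congrFun (congrArg Prod.fst hxy) (⟨x⁻¹ * y, hmem⟩, ⟨y, hy⟩)
  simp only [tok, Finset.mem_univ, if_true, h4] at h2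
  have h5 := eq_of_heq (Sigma.mk.inj h2).2
  apply hw ⟨x⁻¹ * y, hmem⟩
  rw [map_mul, map_inv, Equiv.Perm.mul_apply]
  rw [h5]
  simp

end Pool.Agent.H40R2.Surj
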